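import Pool.Agent.Lib.MP_4fbe7c_an.WH.Iface
import Pool.Agent.Lib.MP_4fbe7c_an.SD.Apri1

/-!
Project WH (MP_4fbe7c_an), module JDE (helper43): the auxiliary functional `Jf`.
-/

set_option autoImplicit false

open Set

namespace Pool.Agent.Lib.MP_4fbe7c_an.WH.H43

open Pool.Agent.Lib.MP_4fbe7c_an.SD Pool.Agent.Lib.MP_4fbe7c_an.FC Pool.Agent.Lib.MP_4fbe7c_an.WH

/-- `R1 ≤ 2 b L`. -/
theorem r1_le {L M : ℝ} {m : ℝ → ℝ} {N : ℕ} {d : Fin N → ℝ} {u v w : Fin N → ℝ → ℝ → ℝ}
    (hC : Ctx L M m d u v w) {t : ℝ} (ht : 0 < t) : R1 L m u t ≤ M * L := by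
  have hL := hC.hL
  have hu : ∀ k, ContinuousOn (u k t) (Icc 0 L) := fun k x hx =>
    (hC.sol.dx k t ht x hx).continuousWithinAt
  have hn := SD.nonneg hL hC.hm hC.hd hC.sol
  have h1 : R1 L m u t ≤ ∫ _x in (0)..L, M := by
    unfold R1
    refine intervalIntegral.integral_mono_on hL.le ?_ ?_ (fun x hx => ?_)
    · refine ContinuousOn.intervalIntegrable ?_
      rw [uIcc_of_le hL.le]
      exact hC.hm.sub (continuousOn_finsetSum _ fun k _ => hu k)
    · exact intervalIntegrable_const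
    · have h2 := (abs_le.1 (hC.hM x hx)).2
      have h3 : 0 ≤ ∑ k, u k t x := Finset.sum_nonneg fun k _ => hn k t ht.le x hx
      linarith
  rw [intervalIntegral.integral_const, smul_eq_mul] at h1
  linarith

/-- **JDE** -/
theorem jde (hYI : YIzStatement) (hLg : LgdStatement) : JDeStatement := by
  intro L b ε κ Cy a m μ N d u v w t hC hW ha ht hCy hCL had hR
  have hL := hC.hL
  have hb := hW.hb
  have hPp : ∀ k ∈ PS L u, Pres L u k := by
    intro k hk
    classical
    unfold PS at hk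
    exact (Finset.mem_filter.1 hk).2
  have hg0 : ∀ k, 0 < gm L u k t := fun k => Real.exp_pos _
  have hy0 : ∀ k, 0 ≤ yy L u v k t := fun k =>
    intervalIntegral.integral_nonneg hL.le fun x _ => sq_nonneg _
  have hz0 : ∀ k, 0 ≤ zq L u v w k t := fun k =>
    intervalIntegral.integral_nonneg hL.le fun x _ => sq_nonneg _
  have hR20 : 0 ≤ R2 L m u t := intervalIntegral.integral_nonneg hL.le fun x _ => sq_nonneg _
  have hR1 : R1 L m u t ≤ 2 * b * L := r1_le hC ht
  refine ⟨Finset.sum_nonneg fun k _ => mul_nonneg (hg0 k).le (hy0 k), ?_⟩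
  -- derivatives
  have hder : ∀ k : Fin N, ∃ y' : ℝ, k ∈ PS L u → (HasDerivAt (yy L u v k) y' t ∧
      y' ≤ -(d k * zq L u v w k t) + R2 L m u t / d k) := by
    intro k
    by_cases hk : k ∈ PS L u
    · obtain ⟨⟨y', h1, h2⟩, -, -⟩ := hYI L (2 * b) m N d u v w k hC (hPp k hk) t ht
      exact ⟨y', fun _ => ⟨h1, h2⟩⟩
    · exact ⟨0, fun h => absurd h hk⟩
  choose y' hy' using hder
  have hgd : ∀ k ∈ PS L u, HasDerivAt (gm L u k)
      (gm L u k t * ((d k * yy L u v k t + R1 L m u t) / L)) t := by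
    intro k hk
    have h1 := (hLg L (2 * b) m N d u v w k hC (hPp k hk) t ht).div_const L
    exact h1.exp
  have hJ : HasDerivAt (Jf L u v)
      (∑ k ∈ PS L u, (gm L u k t * ((d k * yy L u v k t + R1 L m u t) / L) * yy L u v k t +
        gm L u k t * y' k)) t := by
    have h1 : HasDerivAt (fun s => ∑ k ∈ PS L u, gm L u k s * yy L u v k s)
        (∑ k ∈ PS L u, (gm L u k t * ((d k * yy L u v k t + R1 L m u t) / L) * yy L u v k t +
        gm L u k t * y' k)) t :=
      HasDerivAt.fun_sum fun k hk => (hgd k hk).mul (hy' k hk).1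
    exact h1
  refine ⟨_, hJ, ?_⟩
  -- estimate for one species
  have hone : ∀ k ∈ PS L u,
      gm L u k t * ((d k * yy L u v k t + R1 L m u t) / L) * yy L u v k t + gm L u k t * y' k ≤
        -(1 / 2 * (gm L u k t * (d k * zq L u v w k t))) +
          gm L u k t * (R2 L m u t / a + 2 * b * (Cy * ε ^ 2 / a)) := by
    intro k hk
    obtain ⟨-, hyz, -⟩ := hYI L (2 * b) m N d u v w k hC (hPp k hk) t ht
    have hda := had k (hPp k hk)
    have hd0 := hC.hd k
    have hyk := hR.y k hk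
    have e1 : (d k * yy L u v k t) * yy L u v k t / L ≤ 1 / 2 * (d k * zq L u v w k t) := by
      rw [div_le_iff₀ hL]
      calc d k * yy L u v k t * yy L u v k t ≤ (Cy * ε ^ 2) * yy L u v k t :=
            mul_le_mul_of_nonneg_right hyk (hy0 k)
        _ ≤ (Cy * ε ^ 2) * (L ^ 2 * zq L u v w k t) :=
            mul_le_mul_of_nonneg_left hyz (by positivity)
        _ = (Cy * ε ^ 2 * L) * (L * zq L u v w k t) := by ring
        _ ≤ (a / 2) * (L * zq L u v w k t) :=
            mul_le_mul_of_nonneg_right hCL (mul_nonneg hL.le (hz0 k))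
        _ ≤ (d k / 2) * (L * zq L u v w k t) :=
            mul_le_mul_of_nonneg_right (by linarith) (mul_nonneg hL.le (hz0 k))
        _ = 1 / 2 * (d k * zq L u v w k t) * L := by ring
    have e2 : yy L u v k t ≤ Cy * ε ^ 2 / a := by
      rw [le_div_iff₀ ha]
      calc yy L u v k t * a ≤ yy L u v k t * d k := mul_le_mul_of_nonneg_left hda (hy0 k)
        _ = d k * yy L u v k t := mul_comm _ _
        _ ≤ _ := hyk
    have e3 : R1 L m u t * yy L u v k t / L ≤ 2 * b * (Cy * ε ^ 2 / a) := by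
      rw [div_le_iff₀ hL]
      calc R1 L m u t * yy L u v k t ≤ (2 * b * L) * yy L u v k t :=
            mul_le_mul_of_nonneg_right hR1 (hy0 k)
        _ ≤ (2 * b * L) * (Cy * ε ^ 2 / a) := mul_le_mul_of_nonneg_left e2 (by positivity)
        _ = _ := by ring
    have e4 : R2 L m u t / d k ≤ R2 L m u t / a := div_le_div_of_nonneg_left hR20 ha hda
    have e5 := (hy' k hk).2
    have e6 : (d k * yy L u v k t + R1 L m u t) / L * yy L u v k t + y' k ≤
        -(1 / 2 * (d k * zq L u v w k t)) + (R2 L m u t / a + 2 * b * (Cy * ε ^ 2 / a)) := by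
      have h7 : (d k * yy L u v k t + R1 L m u t) / L * yy L u v k t =
          (d k * yy L u v k t) * yy L u v k t / L + R1 L m u t * yy L u v k t / L := by ring
      rw [h7]
      linarith
    have h8 := mul_le_mul_of_nonneg_left e6 (hg0 k).le
    calc _ = gm L u k t * ((d k * yy L u v k t + R1 L m u t) / L * yy L u v k t + y' k) := by ring
      _ ≤ _ := h8
      _ = _ := by ring
  have hsum := Finset.sum_le_sum hone
  have hrhs : ∑ k ∈ PS L u, (-(1 / 2 * (gm L u k t * (d k * zq L u v w k t))) +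
      gm L u k t * (R2 L m u t / a + 2 * b * (Cy * ε ^ 2 / a))) =
      -(1 / 2 * ∑ k ∈ PS L u, gm L u k t * (d k * zq L u v w k t)) +
        (∑ k ∈ PS L u, gm L u k t) * (R2 L m u t / a + 2 * b * (Cy * ε ^ 2 / a)) := by
    rw [Finset.sum_add_distrib, Finset.sum_neg_distrib, ← Finset.mul_sum, ← Finset.sum_mul]
  rw [hrhs] at hsum
  have hwg : ∑ k ∈ PS L u, gm L u k t ≤ 4 * b := hR.wg
  have hc0 : 0 ≤ R2 L m u t / a + 2 * b * (Cy * ε ^ 2 / a) := by positivity
  have hfin := mul_le_mul_of_nonneg_right hwg hc0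
  have hexp : 4 * b * (R2 L m u t / a + 2 * b * (Cy * ε ^ 2 / a)) =
      4 * b / a * R2 L m u t + 8 * b ^ 2 * Cy / a * ε ^ 2 := by ring
  linarith

end Pool.Agent.Lib.MP_4fbe7c_an.WH.H43
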